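import Pool.Agent.Helper55.RG.Spec4

/-! RG, part SYK: `sysE` for arbitrary parameters (copy of PR/HG.lean). -/

set_option autoImplicit false
set_option linter.all false

namespace Pool.Agent.Helper71.RG.SYK

open MvPolynomial Pool.Agent.W275.UB Pool.Agent.W275.ND Pool.Agent Pool.Agent.H927R2.RD
open Pool.Agent.R939.HI Pool.Agent.H936R2 H294UB Pool.Agent.W131.ND.Lmk
open Pool.Agent.Helper55.TT

section subst

variable {κ J : Type} [Fintype J] (τ : Type)

variable {O : Type} [CommRing O] (ω : Module.Basis J ℤ O)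

/-- the equations of the multiplication table -/
noncomputable def gTK (κ : Type) : Set (MvPolynomial (J ⊕ τ) (MvPolynomial κ ℤ)) :=
  (Set.range fun jl : J × J => X (Sum.inl jl.1) * X (Sum.inl jl.2) -
    ∑ t, C (C (ω.repr (ω jl.1 * ω jl.2) t)) * X (Sum.inl t)) ∪
  {(∑ t, C (C (ω.repr 1 t)) * X (Sum.inl t)) - 1}

theorem eval_gTK {R : Type} [CommRing R] (φ : MvPolynomial κ ℤ →+* R) (y : J ⊕ τ → R) :
    (∀ g ∈ gTK τ ω κ, eval₂ φ y g = 0) ↔ Tab ω fun j => y (Sum.inl j) := by
  have hc : ∀ n : ℤ, φ (C n) = (n : R) := fun n => by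
    have : (C n : MvPolynomial κ ℤ) = ((n : ℤ) : MvPolynomial κ ℤ) := by
      simp
    rw [this, map_intCast]
  constructor
  · intro h
    constructor
    · intro j l
      have h1 := h _ (Or.inl ⟨(j, l), rfl⟩)
      simp only [eval₂_sub, eval₂_mul, eval₂_X, eval₂_sum, eval₂_C, hc] at h1
      exact sub_eq_zero.1 h1
    · have h1 := h _ (Or.inr rfl)
      simp only [eval₂_sub, eval₂_mul, eval₂_X, eval₂_sum, eval₂_C, hc, eval₂_one] at h1
      exact sub_eq_zero.1 h1
  · rintro ⟨h1, h2⟩ g hg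
    rcases hg with ⟨⟨j, l⟩, rfl⟩ | rfl
    · simp only [eval₂_sub, eval₂_mul, eval₂_X, eval₂_sum, eval₂_C, hc]
      exact sub_eq_zero.2 (h1 j l)
    · simp only [eval₂_sub, eval₂_mul, eval₂_X, eval₂_sum, eval₂_C, hc, eval₂_one]
      exact sub_eq_zero.2 h2

end subst

/-- the parameters are algebraically independent over the image of the order -/
theorem phi_inj {O J κ : Type} [CommRing O] [IsDomain O] [Fintype J] (ω : Module.Basis J ℤ O)
    {L : Type} [Field L] [Algebra (EE κ) L] (σ : O →+* L) :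
    Function.Injective (eval₂Hom σ (fun q => gn κ L (X q)) :
      MvPolynomial κ O →+* L) := by
  classical
  have hfinO : Module.Finite ℤ O := Module.Finite.of_basis ω
  have hgn : Function.Injective (gn κ L) :=
    (algebraMap (EE κ) L).injective.comp (IsFractionRing.injective _ _)
  have hΦ : (eval₂Hom σ (fun q => gn κ L (X q))).comp (mo O κ) = gn κ L := by
    apply MvPolynomial.ringHom_ext'
    · exact RingHom.ext_int _ _
    · intro q
      simp [mo]
  exact inj_of_restrict _ (by rw [hΦ]; exact hgn)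

/-- a field which is generated by the parameters over the order embeds in every field in which the
parameters are algebraically independent over the order -/
theorem lmk3 (O J : Type) [CommRing O] [IsDomain O] [Fintype J] (ω : Module.Basis J ℤ O)
    (κ : Type) (L : Type) [Field L] [Algebra (EE κ) L]
    [FiniteDimensional (EE κ) L] (σ : O →+* L)
    (hfin : Module.finrank (EE κ) L ≤ Fintype.card J)
    {F : Type} [Field F] (Θ : MvPolynomial κ O →+* F) (hΘinj : Function.Injective Θ) :
    ∃ φ : L →+* F, (∀ o : O, φ (σ o) = Θ (C o)) ∧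
      ∀ q, φ (gn κ L (X q)) = Θ (X q) := by
  classical
  have hfinO : Module.Finite ℤ O := Module.Finite.of_basis ω
  have hgn : Function.Injective (gn κ L) :=
    (algebraMap (EE κ) L).injective.comp (IsFractionRing.injective _ _)
  let Φ : MvPolynomial κ O →+* L := eval₂Hom σ (fun q => gn κ L (X q))
  have hΦ : Φ.comp (mo O κ) = gn κ L := by
    apply MvPolynomial.ringHom_ext'
    · exact RingHom.ext_int _ _
    · intro q
      simp [Φ, mo]
  have hΦinj : Function.Injective Φ := phi_inj ω σ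
  have hmo : Function.Injective (mo O κ) := by
    have h1 : Function.Injective (Φ ∘ mo O κ) := by
      rw [← RingHom.coe_comp, hΦ]
      exact hgn
    exact h1.of_comp
  let F1 : Type := FractionRing (MvPolynomial κ O)
  let algF1L : Algebra F1 L := (IsFractionRing.lift hΦinj : F1 →+* L).toAlgebra
  have hE : Function.Injective ((algebraMap (MvPolynomial κ O) F1).comp (mo O κ)) :=
    (IsFractionRing.injective (MvPolynomial κ O) F1).comp hmo
  let algEF1 : Algebra (EE κ) F1 := (IsFractionRing.lift hE : EE κ →+* F1).toAlgebra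
  have hF1L : ∀ x : MvPolynomial κ O,
      algebraMap F1 L (algebraMap (MvPolynomial κ O) F1 x) = Φ x := fun x =>
    IsFractionRing.lift_algebraMap hΦinj x
  have hEF1 : ∀ c : MvPolynomial κ ℤ, algebraMap (EE κ) F1
      (algebraMap (MvPolynomial κ ℤ) (EE κ) c) =
      algebraMap (MvPolynomial κ O) F1 (mo O κ c) := fun c =>
    IsFractionRing.lift_algebraMap hE c
  have htow : IsScalarTower (EE κ) F1 L := IsScalarTower.of_algebraMap_eq' (by
    apply IsLocalization.ringHom_ext (nonZeroDivisors (MvPolynomial κ ℤ))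
    apply MvPolynomial.ringHom_ext'
    · exact RingHom.ext_int _ _
    · intro c
      change algebraMap (EE κ) L (algebraMap (MvPolynomial κ ℤ) (EE κ) (X c)) =
        algebraMap F1 L (algebraMap (EE κ) F1
          (algebraMap (MvPolynomial κ ℤ) (EE κ) (X c)))
      rw [hEF1, hF1L]
      exact (DFunLike.congr_fun hΦ (X c)).symm)
  have hfd1 : FiniteDimensional (EE κ) F1 := FiniteDimensional.left (EE κ) F1 L
  have hfd2 : FiniteDimensional F1 L := FiniteDimensional.right (EE κ) F1 L
  have hcard : Fintype.card J ≤ Module.finrank (EE κ) F1 :=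
    card_le ω F1 (algebraMap (MvPolynomial κ O) F1) (IsFractionRing.injective _ _)
      (fun c => (hEF1 c).symm)
  have hmul : Module.finrank (EE κ) F1 * Module.finrank F1 L =
      Module.finrank (EE κ) L := Module.finrank_mul_finrank _ _ _
  have hpos : 0 < Module.finrank (EE κ) L := Module.finrank_pos
  have hle : Module.finrank F1 L ≤ 1 := by
    by_contra hcon
    have h1 : Fintype.card J * 2 ≤ Module.finrank (EE κ) F1 * Module.finrank F1 L :=
      Nat.mul_le_mul hcard (not_le.1 hcon)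
    rw [hmul, mul_comm] at h1
    omega
  have hone : Module.finrank F1 L = 1 := le_antisymm hle Module.finrank_pos
  have hsurj : Function.Surjective (algebraMap F1 L) :=
    Algebra.surjective_algebraMap_iff.2 (Subalgebra.bot_eq_top_of_finrank_eq_one hone).symm
  let e : F1 ≃+* L := RingEquiv.ofBijective (algebraMap F1 L) ⟨(algebraMap F1 L).injective, hsurj⟩
  let ψ : L →+* F := (IsFractionRing.lift hΘinj : F1 →+* F).comp (e.symm : L →+* F1)
  have hψΦ : ∀ x : MvPolynomial κ O, ψ (Φ x) = Θ x := by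
    intro x
    have h1 : e.symm (Φ x) = algebraMap (MvPolynomial κ O) F1 x := by
      rw [RingEquiv.symm_apply_eq]
      exact (hF1L x).symm
    show (IsFractionRing.lift hΘinj : F1 →+* F) (e.symm (Φ x)) = _
    rw [h1, IsFractionRing.lift_algebraMap]
  refine ⟨ψ, ?_, ?_⟩
  · intro o
    rw [← hψΦ (C o)]
    congr 1
    simp [Φ]
  · intro q
    rw [← hψΦ (X q)]
    congr 1
    simp [Φ]

/-- the elements of the order are algebraic -/
theorem ord_alg {O J κ : Type} [CommRing O] [IsDomain O] [Fintype J] (ω : Module.Basis J ℤ O)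
    {Ω : Type} [Field Ω] [Algebra (EE κ) Ω] (σ : O →+* Ω) (x : O) :
    IsAlgebraic (EE κ) (σ x) := by
  haveI : Module.Finite ℤ O := Module.Finite.of_basis ω
  have h1 : IsIntegral ℤ x := Algebra.IsIntegral.isIntegral x
  have h2 : IsIntegral ℤ (σ x) := h1.map (σ.toIntAlgHom)
  obtain ⟨p, hp, hpx⟩ := h2
  refine IsIntegral.isAlgebraic
    ⟨p.map (Int.castRingHom (EE κ)), hp.map _, ?_⟩
  rw [Polynomial.eval₂_map]
  have h2 : (algebraMap (EE κ) Ω).comp
      (Int.castRingHom (EE κ)) = algebraMap ℤ Ω := RingHom.ext_int _ _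
  rw [h2]
  exact hpx

/-- **Systems with algebraic solutions.** -/
theorem sysE {O J κ τ : Type} [CommRing O] [IsDomain O] [Fintype J] [Fintype κ] [Fintype τ]
    (ω : Module.Basis J ℤ O) (S : Set (MvPolynomial (J ⊕ τ) (MvPolynomial κ ℤ)))
    (halg : ∀ (Ω : Type) [Field Ω] [IsAlgClosed Ω] [Algebra (EE κ) Ω] (σ : O →+* Ω)
      (y : J ⊕ τ → Ω), (∀ j, y (Sum.inl j) = σ (ω j)) →
      (∀ g ∈ S, eval₂ (gn κ Ω) y g = 0) → ∀ t, IsAlgebraic (EE κ) (y (Sum.inr t)))
    {F : Type} [Field F] (Θ : MvPolynomial κ O →+* F) (hΘ : Function.Injective Θ)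
    (hno : ∀ y : J ⊕ τ → F, (∀ j, y (Sum.inl j) = Θ (C (ω j))) →
      ¬ ∀ g ∈ S, eval₂ (Θ.comp (mo O κ)) y g = 0) :
    D0 {x : κ → ℤ | ∃ (K : Type) (_ : Field K) (_ : NumberField K) (σ : O →+* K)
      (y : J ⊕ τ → K), Module.finrank ℚ K ≤ Fintype.card J ∧ (∀ j, y (Sum.inl j) = σ (ω j)) ∧
      ∀ g ∈ S, eval₂ ((Int.castRingHom K).comp (eval x)) y g = 0} := by
  classical
  by_contra hcon
  have hcon' : ¬ (∀ ε : ℝ, 0 < ε → UD ε {x : κ → ℤ |
      ∃ (K : Type) (_ : Field K) (_ : NumberField K) (y : J ⊕ τ → K),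
        Module.finrank ℚ K ≤ Fintype.card J ∧
        (∀ g ∈ gTK τ ω κ ∪ S, eval₂ ((Int.castRingHom K).comp (eval x)) y g = 0) ∧
        eval₂ ((Int.castRingHom K).comp (eval x)) y 1 ≠ 0}) := by
    intro h
    apply hcon
    intro ε hε
    refine (h ε hε).mono ?_
    rintro x ⟨K, _, _, σ, y, hK, hy, hS⟩
    refine ⟨K, inferInstance, inferInstance, y, hK, ?_, ?_⟩
    · rintro f (hf | hf)
      · exact (eval_gTK _ ω _ _).2 ((tab O J K ω _).2 ⟨σ, hy⟩) f hf
      · exact hS f hf
    · rw [eval₂_one]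
      exact one_ne_zero
  obtain ⟨L, _, _, y, hfd, hdeg, hy, hy0⟩ := genT κ (J ⊕ τ) (Fintype.card J)
    (gTK τ ω κ ∪ S) 1 (by
      intro Ω _ _ _ y hy
      obtain ⟨σ, hσ⟩ := (tab O J Ω ω _).1 ((eval_gTK _ ω _ _).1 fun g hg => hy g (Or.inl hg))
      intro t
      rcases t with j | t
      · rw [show y (Sum.inl j) = σ (ω j) from hσ j]
        exact ord_alg ω σ _
      · exact halg Ω σ y hσ (fun g hg => hy g (Or.inr hg)) t) hcon'
  haveI := hfd
  obtain ⟨σ, hσ⟩ := (tab O J L ω _).1 ((eval_gTK _ ω _ _).1 fun g hg => hy g (Or.inl hg))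
  obtain ⟨φ, hφ1, hφ2⟩ := lmk3 O J ω κ L σ hdeg Θ hΘ
  refine hno (fun t => φ (y t)) (fun j => ?_) ?_
  · rw [show y (Sum.inl j) = σ (ω j) from hσ j, hφ1]
  · intro g hg
    have h1 := congrArg φ (hy g (Or.inr hg))
    rw [map_zero, ← coe_eval₂Hom] at h1
    have h2 : φ.comp (eval₂Hom (gn κ L) y) =
        eval₂Hom (Θ.comp (mo O κ)) (fun t => φ (y t)) := by
      apply MvPolynomial.ringHom_ext'
      · apply MvPolynomial.ringHom_ext'
        · exact RingHom.ext_int _ _
        · intro q
          simp [mo, hφ2]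
      · intro t
        simp
    have h3 := RingHom.congr_fun h2 g
    rw [RingHom.comp_apply, h1] at h3
    exact h3.symm


theorem main : Pool.Agent.Helper55.RG.S_SYK := by
  intro O J κ τ _ _ _ _ _ ω S halg F _ Θ hΘ hno
  exact sysE ω S halg Θ hΘ hno

end Pool.Agent.Helper71.RG.SYK
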