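import Pool.Agent.Helper55.RG.Spec4
import Pool.Agent.Helper55.TT.FinC
import Pool.Agent.Helper71.RG.SYK

/-! RG, parts IKB and IKC: the systems over an order containing the coefficients. -/

set_option autoImplicit false
set_option linter.all false

namespace Pool.Agent.Helper71.RG.Sys

open MvPolynomial Pool.Agent.W275.UB Pool.Agent.W275.ND Pool.Agent Pool.Agent.H927R2.RD
open Pool.Agent.R939.HI Pool.Agent.H936R2 H294UB Pool.Agent.W131.ND.Lmk
open Pool.Agent.Helper55.TT
open Pool.Agent.Helper55.RG (S_SYK S_THN)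
open Pool.Agent.Helper71.RG.SYK (phi_inj ord_alg)

section lk

variable {O J κ τ : Type} [CommRing O] [Fintype J] (ω : Module.Basis J ℤ O)

/-- polynomials over the order in terms of the unknown images of the basis -/
noncomputable def lk (τ : Type) (G : MvPolynomial κ O) :
    MvPolynomial (J ⊕ τ) (MvPolynomial κ ℤ) :=
  ∑ m ∈ G.support, C (monomial m 1) * ∑ j, C (C (ω.repr (G.coeff m) j)) * X (Sum.inl j)

theorem eval_lk {R : Type} [CommRing R] (φ : MvPolynomial κ ℤ →+* R) (y : J ⊕ τ → R)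
    (σ : O →+* R) (hσ : ∀ j, y (Sum.inl j) = σ (ω j)) (G : MvPolynomial κ O) :
    eval₂ φ y (lk ω τ G) = eval₂ σ (fun q => φ (X q)) G := by
  classical
  have hc : ∀ n : ℤ, φ (C n) = (n : R) := fun n => by
    have : (C n : MvPolynomial κ ℤ) = ((n : ℤ) : MvPolynomial κ ℤ) := by
      simp
    rw [this, map_intCast]
  have hm : ∀ m : κ →₀ ℕ, φ (monomial m 1) = m.prod fun q e => φ (X q) ^ e := by
    intro m
    rw [monomial_eq, C_1, one_mul, Finsupp.prod, map_prod]
    simp only [map_pow]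
    rfl
  rw [lk, eval₂_sum, eval₂_eq]
  refine Finset.sum_congr rfl fun m _ => ?_
  rw [eval₂_mul, eval₂_C, hm, mul_comm]
  congr 1
  rw [eval₂_sum]
  conv_rhs => rw [← ω.sum_repr (G.coeff m), map_sum]
  refine Finset.sum_congr rfl fun j _ => ?_
  rw [eval₂_mul, eval₂_C, hc, eval₂_X, hσ, zsmul_eq_mul, map_mul, map_intCast]

/-- the same for polynomials in the further unknowns -/
noncomputable def lkk (G : MvPolynomial τ (MvPolynomial κ O)) :
    MvPolynomial (J ⊕ τ) (MvPolynomial κ ℤ) :=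
  ∑ m ∈ G.support, lk ω τ (G.coeff m) * m.prod fun t e => X (Sum.inr t) ^ e

theorem eval_lkk {R : Type} [CommRing R] (φ : MvPolynomial κ ℤ →+* R) (y : J ⊕ τ → R)
    (σ : O →+* R) (hσ : ∀ j, y (Sum.inl j) = σ (ω j)) (G : MvPolynomial τ (MvPolynomial κ O)) :
    eval₂ φ y (lkk ω G) = eval₂ (eval₂Hom σ fun q => φ (X q)) (fun t => y (Sum.inr t)) G := by
  classical
  rw [lkk, eval₂_sum, eval₂_eq]
  refine Finset.sum_congr rfl fun m _ => ?_
  rw [eval₂_mul, eval_lk ω φ y σ hσ, coe_eval₂Hom]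
  congr 1
  rw [← coe_eval₂Hom, Finsupp.prod, map_prod]
  refine Finset.prod_congr rfl fun t _ => ?_
  rw [map_pow, coe_eval₂Hom, eval₂_X]

end lk

/-- systems over the order -/
theorem sysO (hS : S_SYK) {O J κ τ : Type} [CommRing O] [IsDomain O] [Fintype J] [Fintype κ]
    [Fintype τ] (ω : Module.Basis J ℤ O) (S : Set (MvPolynomial τ (MvPolynomial κ O)))
    (halg : ∀ (Ω : Type) [Field Ω] [IsAlgClosed Ω] [Algebra (EE κ) Ω] (σ : O →+* Ω)
      (y : τ → Ω), (∀ g ∈ S, eval₂ (eval₂Hom σ fun q => gn κ Ω (X q)) y g = 0) →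
      ∀ t, IsAlgebraic (EE κ) (y t))
    {F : Type} [Field F] (Θ : MvPolynomial κ O →+* F) (hΘ : Function.Injective Θ)
    (hno : ∀ y : τ → F, ¬ ∀ g ∈ S, eval₂ Θ y g = 0) :
    D0 {x : κ → ℤ | ∃ (K : Type) (_ : Field K) (_ : NumberField K) (σ : O →+* K)
      (y : τ → K), Module.finrank ℚ K ≤ Fintype.card J ∧
      ∀ g ∈ S, eval₂ (eval₂Hom σ fun q => (x q : K)) y g = 0} := by
  classical
  have key := hS O J κ τ ω (lkk ω '' S) (by
    intro Ω _ _ _ σ y hy h t
    refine halg Ω σ (fun t => y (Sum.inr t)) ?_ t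
    intro g hg
    rw [← eval_lkk ω (gn κ Ω) y σ hy]
    exact h _ ⟨g, hg, rfl⟩) F Θ hΘ (by
    intro y hy h
    refine hno (fun t => y (Sum.inr t)) ?_
    intro g hg
    have h1 := h _ ⟨g, hg, rfl⟩
    rw [eval_lkk ω _ y (Θ.comp C) hy] at h1
    have h2 : (eval₂Hom (Θ.comp C) fun q =>
        (Θ.comp (MvPolynomial.map (Int.castRingHom O))) (X q)) = Θ := by
      apply MvPolynomial.ringHom_ext'
      · ext o
        simp
      · intro q
        simp
    rw [h2] at h1
    exact h1)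
  intro ε hε
  refine (key ε hε).mono ?_
  rintro x ⟨K, _, _, σ, y, hK, h⟩
  refine ⟨K, inferInstance, inferInstance, σ, Sum.elim (fun j => σ (ω j)) y, hK,
    fun j => rfl, ?_⟩
  rintro _ ⟨g, hg, rfl⟩
  rw [eval_lkk ω _ _ σ (fun j => rfl)]
  have h2 : (fun q => ((Int.castRingHom K).comp (eval x)) (X q)) = fun q => (x q : K) := by
    funext q
    simp
  rw [h2]
  exact h g hg

/-- the unknowns: the coefficients of `w` and `h`, and `c` -/
abbrev Un' (q n : ℕ) : Type := Fin q ⊕ (Fin n ⊕ Unit)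

/-- the system `w² - c Q = P h`, `w i = 1` -/
noncomputable def sS {R : Type} [CommRing R] {q : ℕ} (n : ℕ) (i : Fin q) (P Q : Polynomial R) :
    Set (MvPolynomial (Un' q n) R) :=
  (Set.range fun l : ℕ => ((pl fun j : Fin q => X (Sum.inl j)) ^ 2 -
      Polynomial.C (X (Sum.inr (Sum.inr ()))) * Q.map C -
    P.map C * pl fun j : Fin n => X (Sum.inr (Sum.inl j))).coeff l) ∪
  {X (Sum.inl i) - 1}

theorem eval_sS {R R' : Type} [CommRing R] [CommRing R'] {q n : ℕ} (i : Fin q)
    (P Q : Polynomial R) (φ : R →+* R') (y : Un' q n → R') :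
    (∀ g ∈ sS n i P Q, eval₂ φ y g = 0) ↔
      ((pl fun j : Fin q => y (Sum.inl j)) ^ 2 -
      Polynomial.C (y (Sum.inr (Sum.inr ()))) * Q.map φ =
      P.map φ * (pl fun j : Fin n => y (Sum.inr (Sum.inl j)))) ∧
      y (Sum.inl i) = 1 := by
  have hφ : (eval₂Hom φ y).comp C = φ := by
    ext r
    simp
  have key : ∀ l, eval₂ φ y (((pl fun j : Fin q => (X (Sum.inl j) :
      MvPolynomial (Un' q n) R)) ^ 2 -
      Polynomial.C (X (Sum.inr (Sum.inr ()))) * Q.map C -
    P.map C * pl fun j : Fin n => X (Sum.inr (Sum.inl j))).coeff l) =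
      (((pl fun j : Fin q => y (Sum.inl j)) ^ 2 -
      Polynomial.C (y (Sum.inr (Sum.inr ()))) * Q.map φ) -
      P.map φ * (pl fun j : Fin n => y (Sum.inr (Sum.inl j)))).coeff l := by
    intro l
    rw [← coe_eval₂Hom, ← Polynomial.coeff_map]
    simp only [Polynomial.map_sub, Polynomial.map_mul, Polynomial.map_pow, pl_map,
      Polynomial.map_map, hφ, Polynomial.map_C]
    simp
  constructor
  · intro h
    constructor
    · rw [← sub_eq_zero]
      ext l
      rw [← key, Polynomial.coeff_zero]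
      exact h _ (Or.inl ⟨l, rfl⟩)
    · have h1 := h _ (Or.inr rfl)
      rw [eval₂_sub, eval₂_X, eval₂_one] at h1
      exact sub_eq_zero.1 h1
  · rintro ⟨h1, h2⟩ g (⟨l, rfl⟩ | rfl)
    · have h3 := key l
      rw [h1, sub_self, Polynomial.coeff_zero] at h3
      exact h3
    · rw [eval₂_sub, eval₂_X, eval₂_one, h2, sub_self]

/-- **Constants times a polynomial which are squares modulo the generic polynomial.** -/
theorem sysW (hS : S_SYK) {O J κ : Type} [CommRing O] [IsDomain O] [Fintype J] [Fintype κ]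
    (ω : Module.Basis J ℤ O) (P Q A B : Polynomial (MvPolynomial κ O)) (Δ : MvPolynomial κ O)
    (hΔ : Δ ≠ 0) (hPs : A * P + B * Polynomial.derivative P = Polynomial.C Δ)
    {q : ℕ} (n : ℕ) (i : Fin q) (hPd : P.natDegree = q)
    {F : Type} [Field F] (Θ : MvPolynomial κ O →+* F) (hΘ : Function.Injective Θ)
    (hno : ∀ (w h : Polynomial F) (c : F), w.degree < q → w.coeff i = 1 →
      w ^ 2 - Polynomial.C c * Q.map Θ ≠ P.map Θ * h) :
    D0 {x : κ → ℤ | ∃ (K : Type) (_ : Field K) (_ : NumberField K) (σ : O →+* K)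
      (w : Fin q → K) (h : Fin n → K) (c : K),
      Module.finrank ℚ K ≤ Fintype.card J ∧ w i = 1 ∧
      (pl w) ^ 2 - Polynomial.C c * Q.map (eval₂Hom σ fun q => (x q : K)) =
        P.map (eval₂Hom σ fun q => (x q : K)) * pl h} := by
  classical
  have key := sysO hS ω (sS n i P Q) (by
    intro Ω _ _ _ σ y hy
    obtain ⟨h1, hi1⟩ := (eval_sS i P Q _ y).1 hy
    set Φ : MvPolynomial κ O →+* Ω := eval₂Hom σ fun q => gn κ Ω (X q) with hΦ
    have hinj : Function.Injective Φ := phi_inj ω σ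
    have hne : ∀ c : MvPolynomial κ O, c ≠ 0 → Φ c ≠ 0 := fun c hc =>
      (map_ne_zero_iff Φ hinj).2 hc
    have hΦa : ∀ c : MvPolynomial κ O, IsAlgebraic (EE κ) (Φ c) := by
      intro c
      rw [hΦ, coe_eval₂Hom, eval₂_eq]
      refine Finset.sum_induction _ (IsAlgebraic (EE κ)) (fun _ _ => IsAlgebraic.add)
        isAlgebraic_zero ?_
      intro m _
      refine (ord_alg ω σ _).mul ?_
      refine Finset.prod_induction _ (IsAlgebraic (EE κ)) (fun _ _ => IsAlgebraic.mul)
        isAlgebraic_one ?_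
      intro q _
      exact (isAlgebraic_algebraMap _).pow _
    have hPa : ∀ n, IsAlgebraic (EE κ) ((P.map Φ).coeff n) := by
      intro n
      rw [Polynomial.coeff_map]
      exact hΦa _
    have hQa : ∀ n, IsAlgebraic (EE κ) ((Q.map Φ).coeff n) := by
      intro n
      rw [Polynomial.coeff_map]
      exact hΦa _
    have hsep : (P.map Φ).Separable := by
      have h2 := congrArg (fun f => Polynomial.C ((Φ Δ)⁻¹) * Polynomial.map Φ f) hPs
      simp only [Polynomial.map_add, Polynomial.map_mul, Polynomial.map_C] at h2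
      rw [← Polynomial.C_mul, inv_mul_cancel₀ (hne Δ hΔ), Polynomial.C_1,
        ← Polynomial.derivative_map] at h2
      refine ⟨Polynomial.C ((Φ Δ)⁻¹) * A.map Φ, Polynomial.C ((Φ Δ)⁻¹) * B.map Φ, ?_⟩
      rw [← h2]
      ring
    have hPv : (P.map Φ).natDegree = q := by
      rw [Polynomial.natDegree_map_eq_of_injective hinj, hPd]
    have hwd : (pl fun j : Fin q => y (Sum.inl j)).natDegree < (P.map Φ).natDegree := by
      rw [hPv]
      have h2 := pl_deg fun j : Fin q => y (Sum.inl j)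
      by_cases h0 : (pl fun j : Fin q => y (Sum.inl j)) = 0
      · rw [h0, Polynomial.natDegree_zero]
        have := i.2
        omega
      · exact (Polynomial.natDegree_lt_iff_degree_lt h0).2 h2
    have hwi : (pl fun j : Fin q => y (Sum.inl j)).coeff (i : ℕ) = 1 := by
      rw [pl_coeff, dif_pos i.2]
      exact hi1
    obtain ⟨hca, hwa, hha⟩ := isAlg_sys (E := EE κ) hPa hQa hsep hwd hwi h1
    intro t
    rcases t with j | j | j
    · have h5 := hwa j
      rw [pl_coeff, dif_pos j.2] at h5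
      exact h5
    · have h5 := hha j
      rw [pl_coeff, dif_pos j.2] at h5
      exact h5
    · exact hca) Θ hΘ (by
    intro y hy
    obtain ⟨h1, hi1⟩ := (eval_sS i P Q _ y).1 hy
    refine hno _ _ _ (pl_deg fun j : Fin q => y (Sum.inl j)) ?_ h1
    rw [pl_coeff, dif_pos i.2]
    exact hi1)
  intro ε hε
  refine (key ε hε).mono ?_
  rintro x ⟨K, _, _, σ, w, h, c, hK, hwi, e⟩
  refine ⟨K, inferInstance, inferInstance, σ, Sum.elim w (Sum.elim h fun _ => c), hK, ?_⟩
  rw [eval_sS]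
  exact ⟨e, hwi⟩

end Pool.Agent.Helper71.RG.Sys
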