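import Pool.Agent.Helper71.RG.Sys

/-! RG, parts IKB and IKC: the generic polynomial over an order containing the coefficients. -/

set_option autoImplicit false
set_option linter.all false

namespace Pool.Agent.Helper71.RG.Sys

open MvPolynomial Pool.Agent.W275.UB Pool.Agent.W275.ND Pool.Agent Pool.Agent.H927R2.RD
open Pool.Agent.R939.HI Pool.Agent.H936R2 H294UB Pool.Agent.W131.ND.Lmk
open Pool.Agent.Helper55.TT Pool.Agent.R939.EI NumberField
open Pool.Agent.Helper55.RG (S_SYK S_THN)

section gen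

variable {O ι J : Type} [CommRing O] [Fintype J]

/-- the generic polynomial -/
noncomputable def PG (v : J → O) {n : ℕ} (e : Fin (n + 1) → ι) :
    Polynomial (MvPolynomial (ι × J) O) :=
  polA fun i : Fin (n + 1) => ∑ j, X (e i, j) * C (v j)

theorem PG_spec [IsDomain O] [CharZero O] (v : J → O) {j0 : J} (hj0 : v j0 ≠ 0) {n : ℕ} (hn : 1 ≤ n)
    (e : Fin (n + 1) → ι) (he : Function.Injective e) :
    (PG v e).natDegree = n ∧
    ∃ (A B : Polynomial (MvPolynomial (ι × J) O)) (Δ : MvPolynomial (ι × J) O), Δ ≠ 0 ∧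
      A * PG v e + B * Polynomial.derivative (PG v e) = Polynomial.C Δ := by
  classical
  obtain ⟨P, hP⟩ : ∃ P, P = PG v e := ⟨_, rfl⟩
  rw [← hP]
  have hPd : P.natDegree ≤ n := by
    rw [hP]
    exact polA_natDegree _
  have hPd' : (Polynomial.derivative P).natDegree ≤ n - 1 :=
    (Polynomial.natDegree_derivative_le P).trans (Nat.sub_le_sub_right hPd 1)
  let L := FractionRing O
  haveI : CharZero L := by
    apply charZero_of_injective_algebraMap (IsFractionRing.injective O (FractionRing O))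
  set f : Polynomial L := Polynomial.X ^ n - Polynomial.C 1 with hf
  have hfd : f.natDegree = n := Polynomial.natDegree_X_pow_sub_C
  have ha : algebraMap O L (v j0) ≠ 0 := by
    rw [Ne, map_eq_zero_iff _ (IsFractionRing.injective O L)]
    exact hj0
  let u : ι × J → L := fun q => if q.2 = j0 then
    (if h : ∃ j, e j = q.1 then f.coeff (h.choose : ℕ) else 0) * (algebraMap O L (v j0))⁻¹ else 0
  let s : MvPolynomial (ι × J) O →+* L := eval₂Hom (algebraMap O L) u
  have hv : ∀ i, (∑ j, u (e i, j) * algebraMap O L (v j)) = f.coeff (i : ℕ) := by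
    intro i
    have h : ∃ j', e j' = e i := ⟨i, rfl⟩
    have h1 : h.choose = i := he h.choose_spec
    rw [Finset.sum_eq_single j0]
    · simp only [u, if_true]
      rw [dif_pos h, h1, mul_assoc, inv_mul_cancel₀ ha, mul_one]
    · intro j _ hj
      simp only [u]
      rw [if_neg hj, zero_mul]
    · intro h
      exact absurd (Finset.mem_univ _) h
  have hPf : P.map s = f := by
    rw [hP, PG, polA_map]
    have h3 : (fun i : Fin (n + 1) => s (∑ j, X (e i, j) * C (v j))) =
        fun i : Fin (n + 1) => f.coeff (i : ℕ) := by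
      funext i
      rw [← hv i, map_sum]
      refine Finset.sum_congr rfl fun j _ => ?_
      simp [s]
    rw [h3]
    exact polA_of hfd.le
  refine ⟨le_antisymm hPd ?_, ?_⟩
  · have h3 := Polynomial.natDegree_map_le (f := s) (p := P)
    rwa [hPf, hfd] at h3
  obtain ⟨A, B, -, -, hAB⟩ := Polynomial.exists_mul_add_mul_eq_C_resultant P
    (Polynomial.derivative P) hPd hPd' (Or.inl (by omega))
  refine ⟨A, B, _, ?_, by rw [← hAB]; ring⟩
  intro h0
  have h1 := Polynomial.resultant_map_map P (Polynomial.derivative P) n (n - 1) s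
  rw [h0, map_zero, ← Polynomial.derivative_map, hPf] at h1
  have hfd' : (Polynomial.derivative f).natDegree = n - 1 := by
    rw [Polynomial.natDegree_derivative f, hfd]
  have hsep : f.Separable := Polynomial.separable_X_pow_sub_C (1 : L) (by
    exact_mod_cast (by omega : n ≠ 0)) one_ne_zero
  have h2 : Polynomial.resultant f (Polynomial.derivative f) = 0 := by
    rw [hfd, hfd']
    exact h1
  exact (Polynomial.resultant_eq_zero_iff.1 h2).2 hsep

theorem eval_PG (v : J → O) {n : ℕ} (e : Fin (n + 1) → ι) {M : Type} [CommRing M]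
    (Θ : MvPolynomial (ι × J) O →+* M) (t : M)
    (ht : ∑ i : Fin (n + 1), (∑ j, Θ (MvPolynomial.X (e i, j)) * Θ (MvPolynomial.C (v j))) *
      t ^ (i : ℕ) = 0) : ((PG v e).map Θ).eval t = 0 := by
  rw [PG, polA_map, polA, Polynomial.eval_finset_sum, ← ht]
  refine Finset.sum_congr rfl fun i _ => ?_
  rw [Polynomial.eval_mul, Polynomial.eval_C, Polynomial.eval_pow, Polynomial.eval_X, map_sum]
  simp only [map_mul]

end gen

section nf

variable {k k₁ : Type} [Field k] [NumberField k] [Field k₁] [NumberField k₁] [Algebra k k₁]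
  {J : Type} [Fintype J] (ω : Module.Basis J ℤ (𝓞 k)) {u : ℕ} {n : Fin u → ℕ}

/-- the basis of the order of `k₁` -/
theorem PG_kv (l0 : Fin u) (x : (Σ l : Fin u, Fin (n l + 1)) × J → ℤ) :
    (PG (fun j => algebraMap (𝓞 k) (𝓞 k₁) (ω j))
      (fun i : Fin (n l0 + 1) => (⟨l0, i⟩ : Σ l : Fin u, Fin (n l + 1)))).map
      (eval₂Hom (algebraMap (𝓞 k₁) k₁) fun q => (x q : k₁)) =
      (Dp ω x l0).map (algebraMap k k₁) := by
  have e2 : Dp ω x l0 = (polA fun j => kv ω x ⟨l0, j⟩) := rfl
  rw [e2, polA_map, PG, polA_map]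
  congr 1
  funext i
  rw [kv, elt, map_sum, map_sum, map_sum]
  refine Finset.sum_congr rfl fun j _ => ?_
  rw [map_mul, map_mul, map_mul, coe_eval₂Hom, eval₂_X, eval₂_C, map_intCast, map_intCast]
  rfl

/-- normalised solutions of the system -/
theorem toSys {D z S : Polynomial k₁} {Q : Polynomial (𝓞 k₁)} {m N : ℕ} (hD : D ≠ 0)
    (hDm : D.natDegree = m) {d c : k₁} (hd : d ≠ 0)
    (hQ : Q.map (algebraMap (𝓞 k₁) k₁) = Polynomial.C d * S)
    (hN : 2 * m + S.natDegree < N) (hz : D ∣ z ^ 2 - Polynomial.C c * S) {i : Fin m}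
    (hi : (z % D).coeff i ≠ 0) :
    ∃ (w : Fin m → k₁) (h : Fin N → k₁) (c' : k₁), w i = 1 ∧
      (pl w) ^ 2 - Polynomial.C c' * Q.map (algebraMap (𝓞 k₁) k₁) = D * pl h := by
  obtain ⟨a, ha⟩ : ∃ a, a = (z % D).coeff i := ⟨_, rfl⟩
  rw [← ha] at hi
  have hz' : D ∣ (z % D) ^ 2 - Polynomial.C c * S := by
    have e1 : (z % D) ^ 2 - Polynomial.C c * S =
        (z ^ 2 - Polynomial.C c * S) - D * ((z / D) * (z + z % D)) := by
      have e2 := EuclideanDomain.div_add_mod z D
      have e3 : z % D = z - D * (z / D) := by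
        linear_combination e2
      rw [e3]
      ring
    rw [e1]
    exact dvd_sub hz (dvd_mul_right _ _)
  obtain ⟨h, hh⟩ := hz'
  have hm : m ≠ 0 := by
    have := i.2
    omega
  have hwd : (z % D).natDegree < m := by
    rw [← hDm]
    exact Polynomial.natDegree_mod_lt z (by omega)
  have hhd : h.natDegree < N := by
    by_cases h0 : h = 0
    · rw [h0, Polynomial.natDegree_zero]
      omega
    have h1 : h.natDegree ≤ (D * h).natDegree := by
      rw [Polynomial.natDegree_mul hD h0]
      omega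
    refine lt_of_le_of_lt h1 ?_
    rw [← hh]
    refine lt_of_le_of_lt (Polynomial.natDegree_sub_le _ _) (max_lt ?_ ?_)
    · rw [Polynomial.natDegree_pow]
      omega
    · refine lt_of_le_of_lt (Polynomial.natDegree_C_mul_le _ _) ?_
      omega
  refine ⟨fun j => (Polynomial.C a⁻¹ * (z % D)).coeff j,
    fun j => (Polynomial.C (a⁻¹ ^ 2) * h).coeff j, a⁻¹ ^ 2 * c * d⁻¹, ?_, ?_⟩
  · show (Polynomial.C a⁻¹ * (z % D)).coeff i = 1
    rw [Polynomial.coeff_C_mul, ← ha, inv_mul_cancel₀ hi]
  · rw [← eq_pl (lt_of_le_of_lt (Polynomial.natDegree_C_mul_le _ _) hwd),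
      ← eq_pl (lt_of_le_of_lt (Polynomial.natDegree_C_mul_le _ _) hhd), hQ]
    have h1 : (Polynomial.C (a⁻¹ ^ 2 * c * d⁻¹) : Polynomial k₁) * (Polynomial.C d * S) =
        Polynomial.C (a⁻¹ ^ 2) * (Polynomial.C c * S) := by
      rw [← mul_assoc, ← Polynomial.C_mul, ← mul_assoc, ← Polynomial.C_mul]
      congr 2
      field_simp
    rw [h1, mul_pow, ← Polynomial.C_pow, ← mul_sub, hh]
    ring

/-- nonzero polynomials of small degree do not vanish at many points -/
theorem zero_of_roots {M : Type} [Field M] {m : ℕ} {t : Fin m → M} (ht : Function.Injective t)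
    {w : Polynomial M} (hw : w.degree < m) (h : ∀ l, w.eval (t l) = 0) : w = 0 := by
  classical
  refine Polynomial.eq_zero_of_degree_lt_of_eval_finset_eq_zero (Finset.univ.image t) ?_ ?_
  · rw [Finset.card_image_of_injective _ ht, Finset.card_univ, Fintype.card_fin]
    exact hw
  · intro x hx
    obtain ⟨l, -, rfl⟩ := Finset.mem_image.1 hx
    exact h l

end nf

end Pool.Agent.Helper71.RG.Sys
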